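import Mathlib

set_option autoImplicit false

open Finset

namespace Pool.Agent.Helper46.PLapTrig

/-- interpolation weights -/
noncomputable def wt (m k : ℕ) : ℝ :=
  (-1) ^ (k + 1) / (2 * Real.sin (k * Real.pi / (2 * m)) ^ 2)

noncomputable def FF (m : ℕ) (j : ℤ) : ℝ :=
  ∑ k ∈ Ico 1 (2 * m), wt m k * Real.cos (j * (k * Real.pi / m))

lemma sin_pos (m k : ℕ) (hk : k ∈ Ico 1 (2 * m)) :
    0 < Real.sin (k * Real.pi / (2 * m)) := by
  rw [Finset.mem_Ico] at hk
  have hm : (0 : ℝ) < m := by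
    have : 0 < m := by omega
    exact_mod_cast this
  have hk1 : (0 : ℝ) < k := by
    have : 0 < k := by omega
    exact_mod_cast this
  have hk2 : (k : ℝ) < 2 * m := by exact_mod_cast hk.2
  apply Real.sin_pos_of_pos_of_lt_pi
  · positivity
  · rw [div_lt_iff₀ (by positivity)]
    nlinarith [Real.pi_pos]

lemma geom_zero (m : ℕ) (hm : 0 < m) (j : ℤ) (hj : |j| < m) :
    ∑ k ∈ range (2 * m), Real.cos ((j + m : ℤ) * (k * Real.pi / m)) = 0 := by
  have hm' : (m : ℂ) ≠ 0 := by exact_mod_cast hm.ne'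
  set z : ℂ := Complex.exp (((j + m : ℤ) * (Real.pi / m) : ℝ) * Complex.I) with hz
  have hz1 : z ^ (2 * m) = 1 := by
    rw [hz, ← Complex.exp_nat_mul, Complex.exp_eq_one_iff]
    refine ⟨j + m, ?_⟩
    push_cast
    field_simp
  have hz2 : z ≠ 1 := by
    intro h
    rw [hz, Complex.exp_eq_one_iff] at h
    obtain ⟨n, hn⟩ := h
    have h1 : ((j + m : ℤ) : ℂ) = 2 * m * n := by
      have h2 := hn
      push_cast at h2 ⊢
      have hpi : (Real.pi : ℂ) ≠ 0 := by exact_mod_cast Real.pi_ne_zero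
      field_simp at h2
      have hI := Complex.I_ne_zero
      have : ((j : ℂ) + m) = m * n * 2 := by
        linear_combination h2
      linear_combination this
    have h2 : j + m = 2 * m * n := by exact_mod_cast h1
    have h3 := abs_lt.mp hj
    have h4 : 0 < 2 * (m : ℤ) * n := by rw [← h2]; linarith
    have h5 : 2 * (m : ℤ) * n < 2 * m * 1 := by rw [← h2]; linarith
    have hm2 : (0 : ℤ) < 2 * m := by positivity
    have h6 : 0 < n := by
      by_contra hneg
      push Not at hneg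
      nlinarith
    have h7 : n < 1 := lt_of_mul_lt_mul_left h5 hm2.le
    omega
  have hsum : ∑ k ∈ range (2 * m), z ^ k = 0 := by
    have := geom_sum_mul z (2 * m)
    rw [hz1, sub_self] at this
    rcases mul_eq_zero.mp this with h | h
    · exact h
    · exact absurd (sub_eq_zero.mp h) hz2
  have hre := congrArg Complex.re hsum
  rw [Complex.re_sum, Complex.zero_re] at hre
  rw [← hre]
  apply Finset.sum_congr rfl
  intro k _
  rw [hz, ← Complex.exp_nat_mul]
  have : (k : ℂ) * ((((j + m : ℤ) * (Real.pi / m) : ℝ) : ℂ) * Complex.I) =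
      (((j + m : ℤ) * (k * Real.pi / m) : ℝ) : ℂ) * Complex.I := by
    push_cast
    ring
  rw [this, Complex.exp_ofReal_mul_I_re]

lemma FF_diff (m : ℕ) (hm : 0 < m) (j : ℤ) (hj : |j| < m) :
    FF m (j + 1) + FF m (j - 1) - 2 * FF m j = -2 := by
  have hm' : (m : ℝ) ≠ 0 := by exact_mod_cast hm.ne'
  have h0 := geom_zero m hm j hj
  rw [Finset.range_eq_Ico, Finset.sum_eq_sum_Ico_succ_bot (by omega)] at h0
  simp only [CharP.cast_eq_zero, zero_mul, zero_div, mul_zero, Real.cos_zero, zero_add] at h0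
  unfold FF
  rw [Finset.mul_sum, ← Finset.sum_add_distrib, ← Finset.sum_sub_distrib]
  have h1 : ∀ k ∈ Ico 1 (2 * m),
      wt m k * Real.cos ((j + 1 : ℤ) * (k * Real.pi / m)) +
        wt m k * Real.cos ((j - 1 : ℤ) * (k * Real.pi / m)) -
        2 * (wt m k * Real.cos (j * (k * Real.pi / m))) =
      2 * Real.cos ((j + m : ℤ) * (k * Real.pi / m)) := by
    intro k hk
    have hs := sin_pos m k hk
    have e1 : Real.cos ((j + 1 : ℤ) * (k * Real.pi / m)) +
        Real.cos ((j - 1 : ℤ) * (k * Real.pi / m)) =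
        2 * Real.cos (j * (k * Real.pi / m)) * Real.cos (k * Real.pi / m) := by
      push_cast
      have a1 : ((j : ℝ) + 1) * (k * Real.pi / m) = j * (k * Real.pi / m) + k * Real.pi / m := by
        ring
      have a2 : ((j : ℝ) - 1) * (k * Real.pi / m) = j * (k * Real.pi / m) - k * Real.pi / m := by
        ring
      rw [a1, a2, Real.cos_add, Real.cos_sub]
      ring
    have e2 : Real.cos (k * Real.pi / m) = 1 - 2 * Real.sin (k * Real.pi / (2 * m)) ^ 2 := by
      have : (k : ℝ) * Real.pi / m = 2 * (k * Real.pi / (2 * m)) := by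
        field_simp
      rw [this, Real.cos_two_mul, Real.cos_sq']
      ring
    have e3 : Real.cos ((j + m : ℤ) * (k * Real.pi / m)) =
        (-1) ^ k * Real.cos (j * (k * Real.pi / m)) := by
      have : (((j + m : ℤ) : ℝ)) * (k * Real.pi / m) = j * (k * Real.pi / m) + k * Real.pi := by
        push_cast
        field_simp
      rw [this, Real.cos_add_nat_mul_pi]
    have e4 : wt m k * (2 * Real.sin (k * Real.pi / (2 * m)) ^ 2) = (-1) ^ (k + 1) := by
      unfold wt
      field_simp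
    rw [e3, ← mul_add, e1, e2]
    have : wt m k * (2 * Real.cos (j * (k * Real.pi / m)) *
        (1 - 2 * Real.sin (k * Real.pi / (2 * m)) ^ 2)) -
        2 * (wt m k * Real.cos (j * (k * Real.pi / m))) =
        -2 * Real.cos (j * (k * Real.pi / m)) *
          (wt m k * (2 * Real.sin (k * Real.pi / (2 * m)) ^ 2)) := by ring
    rw [this, e4]
    ring
  rw [Finset.sum_congr rfl h1, ← Finset.mul_sum]
  linarith

lemma FF_neg (m : ℕ) (j : ℤ) : FF m (-j) = FF m j := by
  unfold FF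
  apply Finset.sum_congr rfl
  intro k _
  congr 1
  push_cast
  rw [neg_mul, Real.cos_neg]

lemma FF_nat (m : ℕ) (hm : 0 < m) (j : ℕ) (hj : j ≤ m) :
    FF m j = FF m 0 - (j : ℝ) ^ 2 := by
  induction j using Nat.strong_induction_on with
  | _ j ih =>
    rcases j with _ | _ | j
    · simp
    · have h := FF_diff m hm 0 (by simpa using hm)
      have h2 : FF m (0 - 1) = FF m 1 := by
        have := FF_neg m 1
        simpa using this
      rw [h2] at h
      simp only [zero_add] at h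
      have h3 : FF m (((0 + 1 : ℕ)) : ℤ) = FF m 1 := by norm_num
      rw [h3]
      push_cast
      linarith
    · have h1 := ih (j + 1) (by omega) (by omega)
      have h0 := ih j (by omega) (by omega)
      have h := FF_diff m hm (j + 1 : ℕ) (by
        rw [abs_of_nonneg (by positivity)]
        exact_mod_cast hj)
      have e1 : (((j + 1 : ℕ) : ℤ) + 1) = ((j + 1 + 1 : ℕ) : ℤ) := by push_cast; ring
      have e2 : (((j + 1 : ℕ) : ℤ) - 1) = (j : ℤ) := by push_cast; ring
      rw [e1, e2, h1, h0] at h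
      push_cast at h ⊢
      linarith

lemma FF_eq (m : ℕ) (hm : 0 < m) (j : ℤ) (hj : |j| ≤ m) :
    FF m j = FF m 0 - (j : ℝ) ^ 2 := by
  rcases le_total 0 j with h | h
  · lift j to ℕ using h
    rw [FF_nat m hm j (by simpa using hj)]
    push_cast
    ring
  · obtain ⟨k, hk⟩ := Int.eq_ofNat_of_zero_le (show 0 ≤ -j by linarith)
    have hj' : j = -(k : ℤ) := by linarith
    subst hj'
    rw [FF_neg, FF_nat m hm k (by simpa using hj)]
    push_cast
    ring

lemma wt_sign (m k : ℕ) (hk : k ∈ Ico 1 (2 * m)) : 0 < (-1) ^ (k + 1) * wt m k := by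
  have hs := sin_pos m k hk
  unfold wt
  rw [← mul_div_assoc, ← pow_add, ← two_mul, pow_mul]
  simp only [even_two, Even.neg_pow, one_pow]
  positivity

lemma sum_wt_alt (m : ℕ) (hm : 0 < m) :
    ∑ k ∈ Ico 1 (2 * m), (-1) ^ (k + 1) * wt m k = (m : ℝ) ^ 2 - FF m 0 := by
  have h := FF_nat m hm m le_rfl
  have hm' : (m : ℝ) ≠ 0 := by exact_mod_cast hm.ne'
  have : FF m m = - ∑ k ∈ Ico 1 (2 * m), (-1) ^ (k + 1) * wt m k := by
    unfold FF
    rw [← Finset.sum_neg_distrib]
    apply Finset.sum_congr rfl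
    intro k _
    have : (((m : ℤ) : ℝ)) * (k * Real.pi / m) = 0 + k * Real.pi := by
      push_cast
      field_simp
      ring
    rw [this, Real.cos_add_nat_mul_pi, Real.cos_zero]
    ring
  linarith

/-- exponential -/
noncomputable def E (j : ℤ) : ℝ → ℂ := fun t => Complex.exp (((j * t : ℝ) : ℂ) * Complex.I)

noncomputable def V (m : ℕ) : Submodule ℂ (ℝ → ℂ) :=
  Submodule.span ℂ {f | ∃ j : ℤ, |j| ≤ m ∧ f = E j}

lemma E_mul (a b : ℤ) : E a * E b = E (a + b) := by
  funext t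
  simp only [E, Pi.mul_apply]
  rw [← Complex.exp_add]
  congr 1
  push_cast
  ring

lemma V_mul (a b : ℕ) (f g : ℝ → ℂ) (hf : f ∈ V a) (hg : g ∈ V b) : f * g ∈ V (a + b) := by
  have h : V a * V b ≤ V (a + b) := by
    unfold V
    rw [Submodule.span_mul_span]
    apply Submodule.span_mono
    rintro _ ⟨f, ⟨j, hj, rfl⟩, g, ⟨k, hk, rfl⟩, rfl⟩
    refine ⟨j + k, ?_, E_mul j k⟩
    calc |j + k| ≤ |j| + |k| := abs_add_le j k
      _ ≤ a + b := add_le_add hj hk
      _ = ((a + b : ℕ) : ℤ) := by push_cast; ring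
  exact h (Submodule.mul_mem_mul hf hg)

lemma V_one : (1 : ℝ → ℂ) ∈ V 0 := by
  apply Submodule.subset_span
  refine ⟨0, by simp, ?_⟩
  funext t
  simp [E]

lemma V_pow (f : ℝ → ℂ) (hf : f ∈ V 1) (k : ℕ) : f ^ k ∈ V k := by
  induction k with
  | zero => simpa using V_one
  | succ k ih =>
    rw [pow_succ]
    exact V_mul k 1 _ _ ih hf

lemma V_lin (a b : ℝ) : (fun t : ℝ => (((Real.cos t * a + Real.sin t * b : ℝ)) : ℂ)) ∈ V 1 := by
  have h1 : E 1 ∈ V 1 := Submodule.subset_span ⟨1, by simp, rfl⟩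
  have h2 : E (-1) ∈ V 1 := Submodule.subset_span ⟨-1, by simp, rfl⟩
  have h : (fun t : ℝ => (((Real.cos t * a + Real.sin t * b : ℝ)) : ℂ)) =
      (((a : ℂ) - b * Complex.I) / 2) • E 1 + (((a : ℂ) + b * Complex.I) / 2) • E (-1) := by
    funext t
    simp only [E, Pi.add_apply, Pi.smul_apply, smul_eq_mul]
    push_cast
    rw [one_mul, neg_one_mul, neg_mul, Complex.exp_mul_I]
    rw [show -((t : ℂ) * Complex.I) = (-(t : ℂ)) * Complex.I by ring, Complex.exp_mul_I,
      Complex.cos_neg, Complex.sin_neg]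
    linear_combination ((b : ℂ) * Complex.sin t) * Complex.I_sq
  rw [h]
  exact Submodule.add_mem _ (Submodule.smul_mem _ _ h1) (Submodule.smul_mem _ _ h2)

lemma V_prod {n : ℕ} (g : Fin n → ℝ → ℂ) (hg : ∀ i, g i ∈ V 1) (d : Fin n → ℕ)
    (s : Finset (Fin n)) : (∏ i ∈ s, g i ^ d i) ∈ V (∑ i ∈ s, d i) := by
  classical
  induction s using Finset.induction_on with
  | empty => simpa using V_one
  | insert a s ha ih =>
    rw [Finset.prod_insert ha, Finset.sum_insert ha]
    exact V_mul _ _ _ _ (V_pow _ (hg a) _) ih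

lemma V_eval {n m : ℕ} (u : MvPolynomial (Fin n) ℝ) (hu : u.IsHomogeneous m)
    (c v : Fin n → ℝ) :
    (fun t : ℝ => ((MvPolynomial.eval (fun i => Real.cos t * c i + Real.sin t * v i) u : ℝ) : ℂ))
      ∈ V m := by
  have h : (fun t : ℝ =>
      ((MvPolynomial.eval (fun i => Real.cos t * c i + Real.sin t * v i) u : ℝ) : ℂ)) =
      ∑ d ∈ u.support, ((u.coeff d : ℝ) : ℂ) •
        ∏ i ∈ d.support, (fun t : ℝ => (((Real.cos t * c i + Real.sin t * v i : ℝ)) : ℂ)) ^ d i := by
    funext t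
    rw [MvPolynomial.eval_eq]
    simp only [Finset.sum_apply, Pi.smul_apply, Finset.prod_apply, Pi.pow_apply, smul_eq_mul]
    push_cast
    rfl
  rw [h]
  apply Submodule.sum_mem
  intro d hd
  apply Submodule.smul_mem
  have hdeg : ∑ i ∈ d.support, d i = m := by
    have := hu (MvPolynomial.mem_support_iff.mp hd)
    rw [← this, Finsupp.weight_apply, Finsupp.sum]
    simp
  have := V_prod (fun i => fun t : ℝ => (((Real.cos t * c i + Real.sin t * v i : ℝ)) : ℂ))
    (fun i => V_lin (c i) (v i)) d d.support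
  rwa [hdeg] at this

def P (m : ℕ) (T : ℝ → ℂ) : Prop :=
  ∃ T' : ℝ → ℂ, ∃ D : ℂ, (∀ t, HasDerivAt T (T' t) t) ∧ HasDerivAt T' D 0 ∧
    ∑ k ∈ Ico 1 (2 * m), (wt m k : ℂ) *
      ((T (k * Real.pi / m) + T (-(k * Real.pi / m))) / 2) = D + (FF m 0 : ℂ) * T 0

lemma P_E (m : ℕ) (hm : 0 < m) (j : ℤ) (hj : |j| ≤ m) : P m (E j) := by
  have hd : ∀ t : ℝ, HasDerivAt (E j) ((j : ℂ) * Complex.I * E j t) t := by
    intro t
    have h1 : HasDerivAt (fun t : ℝ => ((j * t : ℝ) : ℂ) * Complex.I) ((j : ℂ) * Complex.I) t := by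
      have h0 : HasDerivAt (fun t : ℝ => (j : ℝ) * t) ((j : ℝ)) t := by
        simpa using (hasDerivAt_id t).const_mul (j : ℝ)
      have := (h0.ofReal_comp).mul_const Complex.I
      simpa using this
    have h2 := h1.cexp
    have e : Complex.exp (((j * t : ℝ) : ℂ) * Complex.I) * ((j : ℂ) * Complex.I) =
        (j : ℂ) * Complex.I * E j t := by
      simp only [E]; ring
    rw [e] at h2
    exact h2
  refine ⟨fun t => (j : ℂ) * Complex.I * E j t, (j : ℂ) * Complex.I * ((j : ℂ) * Complex.I * E j 0),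
    hd, (hd 0).const_mul _, ?_⟩
  have hE0 : E j 0 = 1 := by simp [E]
  rw [hE0]
  have h1 : ∀ k ∈ Ico 1 (2 * m), (wt m k : ℂ) *
      ((E j (k * Real.pi / m) + E j (-(k * Real.pi / m))) / 2) =
      ((wt m k * Real.cos (j * (k * Real.pi / m)) : ℝ) : ℂ) := by
    intro k _
    rw [Complex.ofReal_mul]
    congr 1
    simp only [E]
    have : (j : ℝ) * -(k * Real.pi / m) = -((j : ℝ) * (k * Real.pi / m)) := by ring
    rw [this, Complex.exp_mul_I, Complex.exp_mul_I, Complex.ofReal_neg, Complex.cos_neg,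
      Complex.sin_neg, Complex.ofReal_cos]
    ring
  rw [Finset.sum_congr rfl h1, ← Complex.ofReal_sum]
  have h2 : ∑ k ∈ Ico 1 (2 * m), wt m k * Real.cos (j * (k * Real.pi / m)) = FF m j := rfl
  rw [h2, FF_eq m hm j hj]
  push_cast
  linear_combination (-(j : ℂ) ^ 2) * Complex.I_sq

lemma P_of_mem (m : ℕ) (hm : 0 < m) (T : ℝ → ℂ) (hT : T ∈ V m) : P m T := by
  induction hT using Submodule.span_induction with
  | mem x hx =>
    obtain ⟨j, hj, rfl⟩ := hx
    exact P_E m hm j hj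
  | zero =>
    refine ⟨fun _ => 0, 0, ?_, hasDerivAt_const _ _, ?_⟩
    · intro t
      exact hasDerivAt_const t (0 : ℂ)
    · simp
  | add f g _ _ ihf ihg =>
    obtain ⟨f', Df, hf1, hf2, hf3⟩ := ihf
    obtain ⟨g', Dg, hg1, hg2, hg3⟩ := ihg
    refine ⟨fun t => f' t + g' t, Df + Dg, fun t => (hf1 t).add (hg1 t), hf2.add hg2, ?_⟩
    have : ∀ k ∈ Ico 1 (2 * m), (wt m k : ℂ) *
        (((f + g) (k * Real.pi / m) + (f + g) (-(k * Real.pi / m))) / 2) =
        (wt m k : ℂ) * ((f (k * Real.pi / m) + f (-(k * Real.pi / m))) / 2) +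
        (wt m k : ℂ) * ((g (k * Real.pi / m) + g (-(k * Real.pi / m))) / 2) := by
      intro k _
      simp only [Pi.add_apply]
      ring
    rw [Finset.sum_congr rfl this, Finset.sum_add_distrib, hf3, hg3]
    simp only [Pi.add_apply]
    ring
  | smul a f _ ihf =>
    obtain ⟨f', Df, hf1, hf2, hf3⟩ := ihf
    refine ⟨fun t => a * f' t, a * Df, fun t => (hf1 t).const_mul a, hf2.const_mul a, ?_⟩
    have : ∀ k ∈ Ico 1 (2 * m), (wt m k : ℂ) *
        (((a • f) (k * Real.pi / m) + (a • f) (-(k * Real.pi / m))) / 2) =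
        a * ((wt m k : ℂ) * ((f (k * Real.pi / m) + f (-(k * Real.pi / m))) / 2)) := by
      intro k _
      simp only [Pi.smul_apply, smul_eq_mul]
      ring
    rw [Finset.sum_congr rfl this, ← Finset.mul_sum, hf3]
    simp only [Pi.smul_apply, smul_eq_mul]
    ring

/-- real version -/
lemma interp {m : ℕ} (hm : 0 < m) (T T' : ℝ → ℝ) (D : ℝ)
    (hT : (fun t => (T t : ℂ)) ∈ V m) (h1 : ∀ t, HasDerivAt T (T' t) t)
    (h2 : HasDerivAt T' D 0) :
    ∑ k ∈ Ico 1 (2 * m), wt m k * ((T (k * Real.pi / m) + T (-(k * Real.pi / m))) / 2) =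
      D + FF m 0 * T 0 := by
  obtain ⟨S, DS, hS1, hS2, hS3⟩ := P_of_mem m hm _ hT
  have e1 : ∀ t, S t = (T' t : ℂ) := fun t => (hS1 t).unique ((h1 t).ofReal_comp)
  have e1' : S = fun t => (T' t : ℂ) := funext e1
  rw [e1'] at hS2
  have e2 : DS = (D : ℂ) := hS2.unique h2.ofReal_comp
  rw [e2] at hS3
  have : ((∑ k ∈ Ico 1 (2 * m), wt m k *
      ((T (k * Real.pi / m) + T (-(k * Real.pi / m))) / 2) : ℝ) : ℂ) =
      ((D + FF m 0 * T 0 : ℝ) : ℂ) := by
    push_cast
    exact hS3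
  exact_mod_cast this

/-- second derivative at a maximum -/
lemma bern {m : ℕ} (hm : 0 < m) (T T' : ℝ → ℝ) (D M : ℝ)
    (hT : (fun t => (T t : ℂ)) ∈ V m) (h1 : ∀ t, HasDerivAt T (T' t) t)
    (h2 : HasDerivAt T' D 0) (hM : ∀ t, |T t| ≤ M) (h0 : T 0 = M) :
    -(m : ℝ) ^ 2 * M ≤ D ∧ (D = -(m : ℝ) ^ 2 * M → 1 < 2 * m → T (Real.pi / m) = -M) := by
  have h := interp hm T T' D hT h1 h2
  rw [h0] at h
  have hs := sum_wt_alt m hm
  set a : ℕ → ℝ := fun k => (T (k * Real.pi / m) + T (-(k * Real.pi / m))) / 2 with ha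
  have key : ∑ k ∈ Ico 1 (2 * m), ((-1) ^ (k + 1) * wt m k) * ((-1) ^ (k + 1) * a k + M) =
      D + (m : ℝ) ^ 2 * M := by
    have e : ∀ k ∈ Ico 1 (2 * m), ((-1) ^ (k + 1) * wt m k) * ((-1) ^ (k + 1) * a k + M) =
        wt m k * a k + ((-1) ^ (k + 1) * wt m k) * M := by
      intro k _
      have : ((-1 : ℝ) ^ (k + 1)) * (-1) ^ (k + 1) = 1 := by
        rw [← pow_add, ← two_mul, pow_mul]; simp
      linear_combination (wt m k * a k) * this
    rw [Finset.sum_congr rfl e, Finset.sum_add_distrib, ← Finset.sum_mul, hs]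
    have h' : ∑ k ∈ Ico 1 (2 * m), wt m k * a k = D + FF m 0 * M := h
    rw [h']
    ring
  have hnn : ∀ k ∈ Ico 1 (2 * m),
      0 ≤ ((-1) ^ (k + 1) * wt m k) * ((-1) ^ (k + 1) * a k + M) := by
    intro k hk
    apply mul_nonneg (wt_sign m k hk).le
    have b1 := abs_le.mp (hM (k * Real.pi / m))
    have b2 := abs_le.mp (hM (-(k * Real.pi / m)))
    have b3 : |(-1) ^ (k + 1) * a k| ≤ M := by
      rw [abs_mul, abs_pow, abs_neg, abs_one, one_pow, one_mul, abs_le]
      constructor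
      · simp only [ha]; linarith
      · simp only [ha]; linarith
    have := (abs_le.mp b3).1
    linarith
  refine ⟨?_, ?_⟩
  · have := Finset.sum_nonneg hnn
    rw [key] at this
    linarith
  · intro hD h2m
    rw [hD] at key
    have hz : ∑ k ∈ Ico 1 (2 * m),
        ((-1) ^ (k + 1) * wt m k) * ((-1) ^ (k + 1) * a k + M) = 0 := by
      rw [key]; ring
    have h11 := (Finset.sum_eq_zero_iff_of_nonneg hnn).mp hz 1 (by
      rw [Finset.mem_Ico]; omega)
    have hw := wt_sign m 1 (by rw [Finset.mem_Ico]; omega)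
    rcases mul_eq_zero.mp h11 with h | h
    · exact absurd h hw.ne'
    · simp only [ha, Nat.cast_one, one_mul] at h
      norm_num at h
      have b1 := abs_le.mp (hM (Real.pi / m))
      have b2 := abs_le.mp (hM (-(Real.pi / m)))
      linarith

end Pool.Agent.Helper46.PLapTrig
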