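import Mathlib
import Pool.Agent.Helper46.PLapTrig

set_option autoImplicit false

open Finset

namespace Pool.Agent.Helper46.PLapMax

open Pool.Agent.Helper46.PLapTrig

variable {n : ℕ}

/-- gradient entry -/
noncomputable def gr (u : MvPolynomial (Fin n) ℝ) (x : Fin n → ℝ) (i : Fin n) : ℝ :=
  MvPolynomial.eval x (MvPolynomial.pderiv i u)

/-- Hessian entry -/
noncomputable def hs (u : MvPolynomial (Fin n) ℝ) (x : Fin n → ℝ) (i j : Fin n) : ℝ :=
  MvPolynomial.eval x (MvPolynomial.pderiv i (MvPolynomial.pderiv j u))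

lemma pd_comm (u : MvPolynomial (Fin n) ℝ) (i j : Fin n) :
    MvPolynomial.pderiv i (MvPolynomial.pderiv j u) =
      MvPolynomial.pderiv j (MvPolynomial.pderiv i u) := by
  have h : ⁅(MvPolynomial.pderiv (R := ℝ) (σ := Fin n) i),
      (MvPolynomial.pderiv (R := ℝ) (σ := Fin n) j)⁆ = 0 := by
    apply MvPolynomial.derivation_ext
    intro k
    classical
    rw [Derivation.commutator_apply, MvPolynomial.pderiv_X, MvPolynomial.pderiv_X]
    by_cases h1 : k = i <;> by_cases h2 : k = j <;>
      (simp only [Pi.single_apply, h1, h2]; split_ifs <;> simp)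
  have h2 := congrArg (fun d => d u) h
  simp only [Derivation.commutator_apply, Derivation.zero_apply] at h2
  exact sub_eq_zero.mp h2

lemma hs_symm (u : MvPolynomial (Fin n) ℝ) (x : Fin n → ℝ) (i j : Fin n) :
    hs u x i j = hs u x j i := by
  unfold hs
  rw [pd_comm]

lemma hasDerivAt_eval (u : MvPolynomial (Fin n) ℝ) (γ : ℝ → Fin n → ℝ) (γ' : Fin n → ℝ) (t : ℝ)
    (h : ∀ i, HasDerivAt (fun s => γ s i) (γ' i) t) :
    HasDerivAt (fun s => MvPolynomial.eval (γ s) u) (∑ i, gr u (γ t) i * γ' i) t := by
  induction u using MvPolynomial.induction_on with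
  | C a =>
    simp only [MvPolynomial.eval_C, gr, MvPolynomial.pderiv_C, map_zero, zero_mul,
      Finset.sum_const_zero]
    exact hasDerivAt_const t a
  | add p q hp hq =>
    have e : ∑ i, gr (p + q) (γ t) i * γ' i = ∑ i, gr p (γ t) i * γ' i +
        ∑ i, gr q (γ t) i * γ' i := by
      rw [← Finset.sum_add_distrib]
      apply Finset.sum_congr rfl
      intro i _
      simp only [gr, map_add]
      ring
    rw [e]
    simp only [map_add]
    exact hp.add hq
  | mul_X p j hp =>
    have e : ∑ i, gr (p * MvPolynomial.X j) (γ t) i * γ' i =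
        (∑ i, gr p (γ t) i * γ' i) * γ t j + MvPolynomial.eval (γ t) p * γ' j := by
      have : ∀ i, gr (p * MvPolynomial.X j) (γ t) i * γ' i =
          gr p (γ t) i * γ' i * γ t j +
            (if i = j then MvPolynomial.eval (γ t) p * γ' i else 0) := by
        intro i
        simp only [gr, MvPolynomial.pderiv_mul, map_add, map_mul, MvPolynomial.eval_X]
        by_cases hij : i = j
        · subst hij
          simp
          ring
        · rw [MvPolynomial.pderiv_X_of_ne (Ne.symm hij)]
          simp [hij]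
          ring
      rw [Finset.sum_congr rfl (fun i _ => this i), Finset.sum_add_distrib, ← Finset.sum_mul,
        Finset.sum_ite_eq' Finset.univ j]
      simp
    rw [e]
    simp only [map_mul, MvPolynomial.eval_X]
    exact hp.mul (h j)

/-- The curve on the sphere and its first two derivatives. -/
lemma circle_deriv (u : MvPolynomial (Fin n) ℝ) (c v : Fin n → ℝ) :
    (∀ t, HasDerivAt (fun s => MvPolynomial.eval (fun i => Real.cos s * c i + Real.sin s * v i) u)
      (∑ i, gr u (fun i => Real.cos t * c i + Real.sin t * v i) i *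
        (-Real.sin t * c i + Real.cos t * v i)) t) ∧
    HasDerivAt (fun t => ∑ i, gr u (fun i => Real.cos t * c i + Real.sin t * v i) i *
        (-Real.sin t * c i + Real.cos t * v i))
      (∑ i, ∑ j, hs u c i j * v i * v j - ∑ i, gr u c i * c i) 0 := by
  have hc : ∀ (t : ℝ) (i : Fin n), HasDerivAt (fun s => Real.cos s * c i + Real.sin s * v i)
      (-Real.sin t * c i + Real.cos t * v i) t := by
    intro t i
    exact ((Real.hasDerivAt_cos t).mul_const _).add ((Real.hasDerivAt_sin t).mul_const _)
  refine ⟨fun t => hasDerivAt_eval u _ _ t (hc t), ?_⟩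
  have h2 : ∀ i ∈ (Finset.univ : Finset (Fin n)),
      HasDerivAt (fun t => gr u (fun i => Real.cos t * c i + Real.sin t * v i) i *
        (-Real.sin t * c i + Real.cos t * v i))
        ((∑ j, hs u c j i * v j) * v i + gr u c i * (- c i)) 0 := by
    intro i _
    have h3 := hasDerivAt_eval (MvPolynomial.pderiv i u)
      (fun s i => Real.cos s * c i + Real.sin s * v i) _ 0 (hc 0)
    have h4 : HasDerivAt (fun t => -Real.sin t * c i + Real.cos t * v i)
        (-Real.cos 0 * c i + -Real.sin 0 * v i) 0 :=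
      ((Real.hasDerivAt_sin 0).neg.mul_const _).add ((Real.hasDerivAt_cos 0).mul_const _)
    refine (h3.mul h4).congr_deriv ?_
    simp only [Real.cos_zero, Real.sin_zero, one_mul, zero_mul, add_zero, neg_zero,
      zero_add, neg_mul]
    rfl
  have h6 := HasDerivAt.fun_sum h2
  have e : ∑ i, ((∑ j, hs u c j i * v j) * v i + gr u c i * -c i) =
      ∑ i, ∑ j, hs u c i j * v i * v j - ∑ i, gr u c i * c i := by
    rw [Finset.sum_add_distrib, sub_eq_add_neg, ← Finset.sum_neg_distrib]
    congr 1
    · rw [Finset.sum_comm]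
      apply Finset.sum_congr rfl
      intro i _
      rw [Finset.sum_mul]
    · apply Finset.sum_congr rfl
      intro i _
      exact mul_neg _ _
  rw [e] at h6
  exact h6

/-- Euler -/
lemma euler {m : ℕ} (u : MvPolynomial (Fin n) ℝ) (hu : u.IsHomogeneous m) (x : Fin n → ℝ) :
    ∑ i, gr u x i * x i = m * MvPolynomial.eval x u := by
  have h := hu.sum_X_mul_pderiv
  have h2 := congrArg (MvPolynomial.eval x) h
  simp only [map_sum, map_mul, MvPolynomial.eval_X, nsmul_eq_mul, map_natCast] at h2
  rw [← h2]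
  apply Finset.sum_congr rfl
  intro i _
  simp only [gr]
  ring

lemma euler2 {m : ℕ} (hm : 1 ≤ m) (u : MvPolynomial (Fin n) ℝ) (hu : u.IsHomogeneous m)
    (x : Fin n → ℝ) (j : Fin n) :
    ∑ i, hs u x i j * x i = (m - 1) * gr u x j := by
  have h := euler (MvPolynomial.pderiv j u) (hu.pderiv) x
  have : ((m - 1 : ℕ) : ℝ) = (m : ℝ) - 1 := by
    rw [Nat.cast_sub hm]; simp
  rw [this] at h
  exact h

/-- dot product -/
def dp (x y : Fin n → ℝ) : ℝ := ∑ i, x i * y i

/-- quadratic form of the Hessian -/
noncomputable def Q (u : MvPolynomial (Fin n) ℝ) (c v : Fin n → ℝ) : ℝ :=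
  ∑ i, ∑ j, hs u c i j * v i * v j

/-- The maximum situation -/
structure IsMax (u : MvPolynomial (Fin n) ℝ) (m : ℕ) (M : ℝ) (c : Fin n → ℝ) : Prop where
  hom : u.IsHomogeneous m
  pos : 0 < M
  unit : dp c c = 1
  val : MvPolynomial.eval c u = M
  bd : ∀ x, dp x x = 1 → |MvPolynomial.eval x u| ≤ M

lemma dp_circle (c v : Fin n → ℝ) (hc : dp c c = 1) (hv : dp v v = 1) (hcv : dp c v = 0)
    (t : ℝ) : dp (fun i => Real.cos t * c i + Real.sin t * v i)
      (fun i => Real.cos t * c i + Real.sin t * v i) = 1 := by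
  unfold dp at *
  have : ∑ i, (Real.cos t * c i + Real.sin t * v i) * (Real.cos t * c i + Real.sin t * v i) =
      Real.cos t ^ 2 * ∑ i, c i * c i + 2 * (Real.cos t * Real.sin t) * ∑ i, c i * v i +
        Real.sin t ^ 2 * ∑ i, v i * v i := by
    rw [Finset.mul_sum, Finset.mul_sum, Finset.mul_sum, ← Finset.sum_add_distrib,
      ← Finset.sum_add_distrib]
    apply Finset.sum_congr rfl
    intro i _
    ring
  rw [this, hc, hv, hcv]
  have := Real.sin_sq_add_cos_sq t
  linarith

lemma IsMax.first {u : MvPolynomial (Fin n) ℝ} {m : ℕ} {M : ℝ} {c : Fin n → ℝ}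
    (h : IsMax u m M c) (v : Fin n → ℝ) (hv : dp v v = 1) (hcv : dp c v = 0) :
    ∑ i, gr u c i * v i = 0 := by
  have h1 := (circle_deriv u c v).1 0
  simp only [Real.cos_zero, Real.sin_zero, one_mul, zero_mul, add_zero, neg_zero,
      zero_add] at h1
  have hmax : IsLocalMax
      (fun s => MvPolynomial.eval (fun i => Real.cos s * c i + Real.sin s * v i) u) 0 := by
    apply Filter.Eventually.of_forall
    intro t
    have := h.bd _ (dp_circle c v h.unit hv hcv t)
    simp only [Real.cos_zero, Real.sin_zero, one_mul, zero_mul, add_zero]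
    rw [h.val]
    exact (abs_le.mp this).2
  exact hmax.hasDerivAt_eq_zero h1

lemma IsMax.second {u : MvPolynomial (Fin n) ℝ} {m : ℕ} {M : ℝ} {c : Fin n → ℝ}
    (hm : 2 ≤ m) (h : IsMax u m M c) (v : Fin n → ℝ) (hv : dp v v = 1) (hcv : dp c v = 0) :
    -((m : ℝ) * (m - 1) * M) ≤ Q u c v ∧ (Q u c v = -((m : ℝ) * (m - 1) * M) →
      MvPolynomial.eval (fun i => Real.cos (Real.pi / m) * c i + Real.sin (Real.pi / m) * v i) u
        = -M) := by
  obtain ⟨h1, h2⟩ := circle_deriv u c v
  have h3 := bern (m := m) (by omega)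
    (fun s => MvPolynomial.eval (fun i => Real.cos s * c i + Real.sin s * v i) u) _ _ M
    (V_eval u h.hom c v) h1 h2
    (fun t => h.bd _ (dp_circle c v h.unit hv hcv t))
    (by simp only [Real.cos_zero, Real.sin_zero, one_mul, zero_mul, add_zero]; exact h.val)
  have he : ∑ i, gr u c i * c i = m * M := by rw [euler u h.hom c, h.val]
  rw [he] at h3
  change -(m : ℝ) ^ 2 * M ≤ Q u c v - m * M ∧ (Q u c v - m * M = -(m : ℝ) ^ 2 * M → _ → _) at h3
  refine ⟨by linarith [h3.1], fun hq => h3.2 (by rw [hq]; ring) (by omega)⟩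

lemma Q_smul (u : MvPolynomial (Fin n) ℝ) (c v : Fin n → ℝ) (a : ℝ) :
    Q u c (fun i => a * v i) = a ^ 2 * Q u c v := by
  unfold Q
  rw [Finset.mul_sum]
  apply Finset.sum_congr rfl
  intro i _
  rw [Finset.mul_sum]
  apply Finset.sum_congr rfl
  intro j _
  ring

lemma dp_self_nonneg (v : Fin n → ℝ) : 0 ≤ dp v v :=
  Finset.sum_nonneg (fun i _ => mul_self_nonneg (v i))

lemma IsMax.second' {u : MvPolynomial (Fin n) ℝ} {m : ℕ} {M : ℝ} {c : Fin n → ℝ}
    (hm : 2 ≤ m) (h : IsMax u m M c) (v : Fin n → ℝ) (hcv : dp c v = 0) :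
    0 ≤ Q u c v + (m : ℝ) * (m - 1) * M * dp v v := by
  rcases (dp_self_nonneg v).eq_or_lt with h0 | h0
  · have hv : v = 0 := by
      have h1 := (Finset.sum_eq_zero_iff_of_nonneg
        (fun i _ => mul_self_nonneg (v i))).mp h0.symm
      funext i
      exact mul_self_eq_zero.mp (h1 i (Finset.mem_univ i))
    subst hv
    simp [Q, dp]
  · set r := Real.sqrt (dp v v) with hr
    have hr0 : 0 < r := Real.sqrt_pos.mpr h0
    have hr2 : r ^ 2 = dp v v := Real.sq_sqrt h0.le
    set w : Fin n → ℝ := fun i => r⁻¹ * v i with hw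
    have hww : dp w w = 1 := by
      have : dp w w = r⁻¹ ^ 2 * dp v v := by
        unfold dp
        rw [Finset.mul_sum]
        apply Finset.sum_congr rfl
        intro i _
        simp only [hw]
        ring
      rw [this, ← hr2]
      field_simp
    have hcw : dp c w = 0 := by
      have : dp c w = r⁻¹ * dp c v := by
        unfold dp
        rw [Finset.mul_sum]
        apply Finset.sum_congr rfl
        intro i _
        simp only [hw]
        ring
      rw [this, hcv, mul_zero]
    have h1 := (h.second hm w hww hcw).1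
    have h2 : Q u c w = r⁻¹ ^ 2 * Q u c v := Q_smul u c v r⁻¹
    rw [h2] at h1
    have h3 : r ^ 2 * (r⁻¹ ^ 2 * Q u c v) = Q u c v := by field_simp
    have h4 : r ^ 2 * (-((m : ℝ) * (m - 1) * M)) ≤ r ^ 2 * (r⁻¹ ^ 2 * Q u c v) :=
      mul_le_mul_of_nonneg_left h1 (by positivity)
    rw [h3, hr2] at h4
    linarith

/-- the gradient at a maximum -/
lemma IsMax.grad {u : MvPolynomial (Fin n) ℝ} {m : ℕ} {M : ℝ} {c : Fin n → ℝ}
    (h : IsMax u m M c) (v : Fin n → ℝ) :
    ∑ i, gr u c i * v i = m * M * dp c v := by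
  have he : ∑ i, gr u c i * c i = m * M := by rw [euler u h.hom c, h.val]
  -- decompose v = a c + w
  set a := dp c v with ha
  set w : Fin n → ℝ := fun i => v i - a * c i with hw
  have hcw : dp c w = 0 := by
    have : dp c w = dp c v - a * dp c c := by
      unfold dp
      rw [Finset.mul_sum, ← Finset.sum_sub_distrib]
      apply Finset.sum_congr rfl
      intro i _
      simp only [hw]
      ring
    rw [this, h.unit, ← ha]
    ring
  have hw0 : ∑ i, gr u c i * w i = 0 := by
    rcases (dp_self_nonneg w).eq_or_lt with h0 | h0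
    · have hv : w = 0 := by
        have h1 := (Finset.sum_eq_zero_iff_of_nonneg
          (fun i _ => mul_self_nonneg (w i))).mp h0.symm
        funext i
        exact mul_self_eq_zero.mp (h1 i (Finset.mem_univ i))
      rw [hv]
      simp
    · set r := Real.sqrt (dp w w) with hr
      have hr0 : 0 < r := Real.sqrt_pos.mpr h0
      have hr2 : r ^ 2 = dp w w := Real.sq_sqrt h0.le
      have hww : dp (fun i => r⁻¹ * w i) (fun i => r⁻¹ * w i) = 1 := by
        have : dp (fun i => r⁻¹ * w i) (fun i => r⁻¹ * w i) = r⁻¹ ^ 2 * dp w w := by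
          unfold dp
          rw [Finset.mul_sum]
          apply Finset.sum_congr rfl
          intro i _
          ring
        rw [this, ← hr2]
        field_simp
      have hcw' : dp c (fun i => r⁻¹ * w i) = 0 := by
        have : dp c (fun i => r⁻¹ * w i) = r⁻¹ * dp c w := by
          unfold dp
          rw [Finset.mul_sum]
          apply Finset.sum_congr rfl
          intro i _
          ring
        rw [this, hcw, mul_zero]
      have h1 := h.first _ hww hcw'
      have h2 : ∑ i, gr u c i * (r⁻¹ * w i) = r⁻¹ * ∑ i, gr u c i * w i := by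
        rw [Finset.mul_sum]
        apply Finset.sum_congr rfl
        intro i _
        ring
      rw [h2] at h1
      rcases mul_eq_zero.mp h1 with h3 | h3
      · exact absurd h3 (inv_ne_zero hr0.ne')
      · exact h3
  have h5 : ∑ i, gr u c i * v i = ∑ i, gr u c i * w i + a * ∑ i, gr u c i * c i := by
    rw [Finset.mul_sum, ← Finset.sum_add_distrib]
    apply Finset.sum_congr rfl
    intro i _
    simp only [hw]
    ring
  rw [h5, hw0, he]
  ring

lemma IsMax.grad_eq {u : MvPolynomial (Fin n) ℝ} {m : ℕ} {M : ℝ} {c : Fin n → ℝ}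
    (h : IsMax u m M c) (i : Fin n) : gr u c i = m * M * c i := by
  have h1 := h.grad (fun j => if j = i then 1 else 0)
  simp only [dp, mul_ite, mul_one, mul_zero, Finset.sum_ite_eq', Finset.mem_univ, if_true] at h1
  exact h1

end Pool.Agent.Helper46.PLapMax
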