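import Mathlib
import Pool.Agent.Helper46.PLapMax

set_option autoImplicit false

open Finset

namespace Pool.Agent.Helper46.PLapMax

open Pool.Agent.Helper46.PLapTrig

variable {n : ℕ}

/-- The equation at a point. -/
def Eqn (u : MvPolynomial (Fin n) ℝ) (p : ℝ) (x : Fin n → ℝ) : Prop :=
  (∑ i, (gr u x i) ^ 2) * (∑ i, hs u x i i) +
    (p - 2) * ∑ i, ∑ j, gr u x i * gr u x j * hs u x i j = 0

lemma IsMax.Qc {u : MvPolynomial (Fin n) ℝ} {m : ℕ} {M : ℝ} {c : Fin n → ℝ}
    (hm : 2 ≤ m) (h : IsMax u m M c) : Q u c c = m * (m - 1) * M := by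
  have h1 : Q u c c = ∑ j, c j * ∑ i, hs u c i j * c i := by
    unfold Q
    rw [Finset.sum_comm]
    apply Finset.sum_congr rfl
    intro j _
    rw [Finset.mul_sum]
    apply Finset.sum_congr rfl
    intro i _
    ring
  have h2 : ∀ j, c j * ∑ i, hs u c i j * c i = (m - 1) * (gr u c j * c j) := by
    intro j
    rw [euler2 (by omega) u h.hom c j]
    ring
  rw [h1, Finset.sum_congr rfl (fun j _ => h2 j), ← Finset.mul_sum, euler u h.hom c, h.val]
  ring

lemma IsMax.trace {u : MvPolynomial (Fin n) ℝ} {m : ℕ} {M : ℝ} {c : Fin n → ℝ} {p : ℝ}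
    (hm : 2 ≤ m) (h : IsMax u m M c) (he : Eqn u p c) :
    ∑ i, hs u c i i = -(p - 2) * (m * (m - 1) * M) := by
  have hmM : (0 : ℝ) < m * M := by
    have : (0 : ℝ) < m := by
      have : 0 < m := by omega
      exact_mod_cast this
    exact mul_pos this h.pos
  have h1 : ∑ i, (gr u c i) ^ 2 = (m * M) ^ 2 := by
    have : ∀ i, (gr u c i) ^ 2 = (m * M) ^ 2 * (c i * c i) := by
      intro i
      rw [h.grad_eq i]
      ring
    rw [Finset.sum_congr rfl (fun i _ => this i), ← Finset.mul_sum]
    have := h.unit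
    unfold dp at this
    rw [this, mul_one]
  have h2 : ∑ i, ∑ j, gr u c i * gr u c j * hs u c i j = (m * M) ^ 2 * Q u c c := by
    unfold Q
    rw [Finset.mul_sum]
    apply Finset.sum_congr rfl
    intro i _
    rw [Finset.mul_sum]
    apply Finset.sum_congr rfl
    intro j _
    rw [h.grad_eq i, h.grad_eq j]
    ring
  unfold Eqn at he
  rw [h1, h2, h.Qc hm] at he
  have h3 : (m * M) ^ 2 * (∑ i, hs u c i i + (p - 2) * (m * (m - 1) * M)) = 0 := by
    linarith
  rcases mul_eq_zero.mp h3 with h4 | h4
  · exact absurd h4 (by positivity)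
  · linarith

lemma proj_sum (c w : Fin n → ℝ) (hc : dp c c = 1) (hw : dp w w = 1) (hcw : dp c w = 0)
    (i j : Fin n) :
    ∑ k, ((if k = i then 1 else 0) - c k * c i - w k * w i) *
      ((if k = j then 1 else 0) - c k * c j - w k * w j) =
      (if i = j then 1 else 0) - c i * c j - w i * w j := by
  have e : ∀ k, ((if k = i then (1 : ℝ) else 0) - c k * c i - w k * w i) *
      ((if k = j then 1 else 0) - c k * c j - w k * w j) =
      (if k = i then (if k = j then 1 else 0) else 0) + (if k = i then - (c k * c j) else 0) +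
      (if k = i then -(w k * w j) else 0) + (if k = j then -(c k * c i) else 0) +
      (if k = j then -(w k * w i) else 0) + (c k * c k) * (c i * c j) +
      (c k * w k) * (c i * w j + w i * c j) + (w k * w k) * (w i * w j) := by
    intro k
    split_ifs <;> ring
  rw [Finset.sum_congr rfl (fun k _ => e k)]
  simp only [Finset.sum_add_distrib, Finset.sum_ite_eq', Finset.mem_univ, if_true,
    ← Finset.sum_mul]
  unfold dp at hc hw hcw
  rw [hc, hw, hcw]
  ring

/-- trace estimate in a direction orthogonal to the maximum -/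
lemma IsMax.dir {u : MvPolynomial (Fin n) ℝ} {m : ℕ} {M : ℝ} {c : Fin n → ℝ} {p : ℝ}
    (hm : 2 ≤ m) (h : IsMax u m M c) (he : Eqn u p c) (hp : (n : ℝ) ≤ p)
    (w : Fin n → ℝ) (hw : dp w w = 1) (hcw : dp c w = 0) :
    Q u c w = -((m : ℝ) * (m - 1) * M) := by
  set lam : ℝ := (m : ℝ) * (m - 1) * M with hlam
  have hlam0 : 0 < lam := by
    have h2 : (2 : ℝ) ≤ m := by exact_mod_cast hm
    have := h.pos
    have h3 : (0 : ℝ) < (m : ℝ) - 1 := by linarith
    positivity
  set v : Fin n → Fin n → ℝ := fun k i => (if k = i then 1 else 0) - c k * c i - w k * w i with hv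
  have hcv : ∀ k, dp c (v k) = 0 := by
    intro k
    have : dp c (v k) = c k - c k * dp c c - w k * dp c w := by
      unfold dp
      simp only [hv, mul_sub, Finset.sum_sub_distrib, mul_ite, mul_one, mul_zero,
        Finset.sum_ite_eq, Finset.mem_univ, if_true, Finset.mul_sum]
      congr 1
      · congr 1
        apply Finset.sum_congr rfl
        intro i _
        ring
      · apply Finset.sum_congr rfl
        intro i _
        ring
    rw [this, h.unit, hcw]
    ring
  have hpos : 0 ≤ ∑ k, (Q u c (v k) + lam * dp (v k) (v k)) :=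
    Finset.sum_nonneg (fun k _ => h.second' hm (v k) (hcv k))
  rw [Finset.sum_add_distrib, ← Finset.mul_sum] at hpos
  have hdp : ∑ k, dp (v k) (v k) = n - 2 := by
    unfold dp
    rw [Finset.sum_comm]
    have : ∀ i, ∑ k, v k i * v k i = 1 - c i * c i - w i * w i := by
      intro i
      have := proj_sum c w h.unit hw hcw i i
      simp only [if_true] at this
      exact this
    rw [Finset.sum_congr rfl (fun i _ => this i), Finset.sum_sub_distrib, Finset.sum_sub_distrib]
    have h1 := h.unit
    have h2 := hw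
    unfold dp at h1 h2
    rw [h1, h2]
    simp
    ring
  have hQ : ∑ k, Q u c (v k) = ∑ i, hs u c i i - Q u c c - Q u c w := by
    unfold Q
    rw [Finset.sum_comm, ← Finset.sum_sub_distrib, ← Finset.sum_sub_distrib]
    apply Finset.sum_congr rfl
    intro i _
    rw [Finset.sum_comm]
    have e : ∀ j, ∑ k, hs u c i j * v k i * v k j =
        (if i = j then hs u c i j else 0) - hs u c i j * c i * c j - hs u c i j * w i * w j := by
      intro j
      have e1 : ∑ k, hs u c i j * v k i * v k j = hs u c i j * ∑ k, v k i * v k j := by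
        rw [Finset.mul_sum]
        apply Finset.sum_congr rfl
        intro k _
        ring
      rw [e1, proj_sum c w h.unit hw hcw i j]
      split_ifs <;> ring
    rw [Finset.sum_congr rfl (fun j _ => e j), Finset.sum_sub_distrib, Finset.sum_sub_distrib]
    simp
  rw [hdp, hQ, h.trace hm he, h.Qc hm, ← hlam] at hpos
  have hlow := (h.second hm w hw hcw).1
  rw [← hlam] at hlow
  have : (n - p) * lam ≤ 0 := by
    apply mul_nonpos_of_nonpos_of_nonneg _ hlam0.le
    linarith
  apply le_antisymm
  · nlinarith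
  · exact hlow

lemma exists_unit_orth (hn : 3 ≤ n) (a b : Fin n → ℝ) :
    ∃ v : Fin n → ℝ, dp v v = 1 ∧ dp a v = 0 ∧ dp b v = 0 := by
  let f : (Fin n → ℝ) →ₗ[ℝ] (Fin 2 → ℝ) :=
    LinearMap.pi ![∑ i, a i • LinearMap.proj i, ∑ i, b i • LinearMap.proj i]
  have hker : LinearMap.ker f ≠ ⊥ := by
    apply LinearMap.ker_ne_bot_of_finrank_lt
    simp
    omega
  obtain ⟨x, hx, hx0⟩ := Submodule.exists_mem_ne_zero_of_ne_bot hker
  have ha : dp a x = 0 := by
    have := congrFun (LinearMap.mem_ker.mp hx) 0
    simpa [f, dp] using this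
  have hb : dp b x = 0 := by
    have := congrFun (LinearMap.mem_ker.mp hx) 1
    simpa [f, dp] using this
  have hpos : 0 < dp x x := by
    rcases (dp_self_nonneg x).eq_or_lt with h0 | h0
    · exfalso
      apply hx0
      have h1 := (Finset.sum_eq_zero_iff_of_nonneg
        (fun i _ => mul_self_nonneg (x i))).mp h0.symm
      funext i
      exact mul_self_eq_zero.mp (h1 i (Finset.mem_univ i))
    · exact h0
  set r := Real.sqrt (dp x x) with hr
  have hr0 : 0 < r := Real.sqrt_pos.mpr hpos
  have hr2 : r ^ 2 = dp x x := Real.sq_sqrt hpos.le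
  have hsm : ∀ y : Fin n → ℝ, dp y (fun i => r⁻¹ * x i) = r⁻¹ * dp y x := by
    intro y
    unfold dp
    rw [Finset.mul_sum]
    apply Finset.sum_congr rfl
    intro i _
    ring
  refine ⟨fun i => r⁻¹ * x i, ?_, ?_, ?_⟩
  · have : dp (fun i => r⁻¹ * x i) (fun i => r⁻¹ * x i) = r⁻¹ ^ 2 * dp x x := by
      unfold dp
      rw [Finset.mul_sum]
      apply Finset.sum_congr rfl
      intro i _
      ring
    rw [this, ← hr2]
    field_simp
  · rw [hsm, ha, mul_zero]
  · rw [hsm, hb, mul_zero]

lemma IsMax.neg_of {u : MvPolynomial (Fin n) ℝ} {m : ℕ} {M : ℝ} {c : Fin n → ℝ}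
    (h : IsMax u m M c) (c' : Fin n → ℝ) (hc' : dp c' c' = 1)
    (hv : MvPolynomial.eval c' u = -M) : IsMax (-u) m M c' where
  hom := by
    have := (h.hom).neg
    exact this
  pos := h.pos
  unit := hc'
  val := by rw [map_neg, hv, neg_neg]
  bd := by
    intro x hx
    rw [map_neg, abs_neg]
    exact h.bd x hx

lemma Eqn_neg (u : MvPolynomial (Fin n) ℝ) (p : ℝ) (x : Fin n → ℝ) (h : Eqn u p x) :
    Eqn (-u) p x := by
  unfold Eqn at *
  simp only [gr, hs, map_neg] at *
  have e1 : ∑ i, (-(MvPolynomial.eval x (MvPolynomial.pderiv i u))) ^ 2 =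
      ∑ i, (MvPolynomial.eval x (MvPolynomial.pderiv i u)) ^ 2 := by
    apply Finset.sum_congr rfl
    intro i _
    ring
  have e2 : ∑ i, -(MvPolynomial.eval x (MvPolynomial.pderiv i (MvPolynomial.pderiv i u))) =
      - ∑ i, (MvPolynomial.eval x (MvPolynomial.pderiv i (MvPolynomial.pderiv i u))) :=
    Finset.sum_neg_distrib _
  have e3 : ∑ i, ∑ j, -(MvPolynomial.eval x (MvPolynomial.pderiv i u)) *
      -(MvPolynomial.eval x (MvPolynomial.pderiv j u)) *
      -(MvPolynomial.eval x (MvPolynomial.pderiv i (MvPolynomial.pderiv j u))) =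
      - ∑ i, ∑ j, (MvPolynomial.eval x (MvPolynomial.pderiv i u)) *
      (MvPolynomial.eval x (MvPolynomial.pderiv j u)) *
      (MvPolynomial.eval x (MvPolynomial.pderiv i (MvPolynomial.pderiv j u))) := by
    rw [← Finset.sum_neg_distrib]
    apply Finset.sum_congr rfl
    intro i _
    rw [← Finset.sum_neg_distrib]
    apply Finset.sum_congr rfl
    intro j _
    ring
  rw [e1, e2, e3]
  linarith

theorem no_max (hn : 3 ≤ n) {u : MvPolynomial (Fin n) ℝ} {m : ℕ} {M : ℝ} {c : Fin n → ℝ} {p : ℝ}
    (hm : 2 ≤ m) (h : IsMax u m M c) (he : ∀ x, Eqn u p x) (hp : (n : ℝ) ≤ p) : False := by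
  obtain ⟨e, hee, hce, -⟩ := exists_unit_orth hn c c
  obtain ⟨f, hff, hcf, hef⟩ := exists_unit_orth hn c e
  set A := Real.cos (Real.pi / m) with hA
  set S := Real.sin (Real.pi / m) with hS
  have hAS : S ^ 2 + A ^ 2 = 1 := Real.sin_sq_add_cos_sq _
  have hS0 : 0 < S := by
    apply Real.sin_pos_of_pos_of_lt_pi
    · have : (0 : ℝ) < m := by
        have : 0 < m := by omega
        exact_mod_cast this
      positivity
    · have h2 : (2 : ℝ) ≤ m := by exact_mod_cast hm
      rw [div_lt_iff₀ (by linarith)]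
      nlinarith [Real.pi_pos]
  have hcomb : ∀ w : Fin n → ℝ, dp w w = 1 → dp c w = 0 →
      MvPolynomial.eval (fun i => A * c i + S * w i) u = -M := by
    intro w hw hcw
    exact (h.second hm w hw hcw).2 (h.dir hm (he c) hp w hw hcw)
  set c' : Fin n → ℝ := fun i => A * c i + S * e i with hc'
  have hc'1 : dp c' c' = 1 := dp_circle c e h.unit hee hce (Real.pi / m)
  have hM' := h.neg_of c' hc'1 (hcomb e hee hce)
  have hlin : ∀ y : Fin n → ℝ, dp c' y = A * dp c y + S * dp e y := by
    intro y
    unfold dp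
    rw [Finset.mul_sum, Finset.mul_sum, ← Finset.sum_add_distrib]
    apply Finset.sum_congr rfl
    intro i _
    simp only [hc']
    ring
  have hc'f : dp c' f = 0 := by rw [hlin, hcf, hef]; ring
  have hc'e : dp c' e = S := by rw [hlin, hce, hee]; ring
  have hdir := hM'.dir hm (Eqn_neg u p c' (he c')) hp f hff hc'f
  have hgr := hM'.grad e
  rw [hc'e] at hgr
  -- second derivative along the small circle
  have hQneg : Q (-u) c' f = - Q u c' f := by
    unfold Q
    rw [← Finset.sum_neg_distrib]
    apply Finset.sum_congr rfl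
    intro i _
    rw [← Finset.sum_neg_distrib]
    apply Finset.sum_congr rfl
    intro j _
    simp only [hs, map_neg]
    ring
  have hgneg : ∑ i, gr (-u) c' i * e i = - ∑ i, gr u c' i * e i := by
    rw [← Finset.sum_neg_distrib]
    apply Finset.sum_congr rfl
    intro i _
    simp only [gr, map_neg]
    ring
  rw [hQneg] at hdir
  rw [hgneg] at hgr
  -- curve
  let γ : ℝ → Fin n → ℝ := fun t i => A * c i + S * (Real.cos t * e i + Real.sin t * f i)
  have hγd : ∀ t i, HasDerivAt (fun s => γ s i) (S * (-Real.sin t * e i + Real.cos t * f i)) t := by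
    intro t i
    have h1 : HasDerivAt (fun s => Real.cos s * e i + Real.sin s * f i)
        (-Real.sin t * e i + Real.cos t * f i) t :=
      ((Real.hasDerivAt_cos t).mul_const _).add ((Real.hasDerivAt_sin t).mul_const _)
    exact (h1.const_mul S).const_add (A * c i)
  have hconst : ∀ t, MvPolynomial.eval (γ t) u = -M := by
    intro t
    have hw1 := dp_circle e f hee hff hef t
    have hw2 : dp c (fun i => Real.cos t * e i + Real.sin t * f i) = 0 := by
      have : dp c (fun i => Real.cos t * e i + Real.sin t * f i) =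
          Real.cos t * dp c e + Real.sin t * dp c f := by
        unfold dp
        rw [Finset.mul_sum, Finset.mul_sum, ← Finset.sum_add_distrib]
        apply Finset.sum_congr rfl
        intro i _
        ring
      rw [this, hce, hcf]
      ring
    exact hcomb _ hw1 hw2
  have hd1 : ∀ t, ∑ i, gr u (γ t) i * (S * (-Real.sin t * e i + Real.cos t * f i)) = 0 := by
    intro t
    have h1 := hasDerivAt_eval u γ _ t (hγd t)
    have h2 : HasDerivAt (fun s => MvPolynomial.eval (γ s) u) 0 t := by
      have : (fun s => MvPolynomial.eval (γ s) u) = fun _ => -M := funext hconst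
      rw [this]
      exact hasDerivAt_const t (-M)
    exact h1.unique h2
  have hγ0 : γ 0 = c' := by
    funext i
    simp only [γ, hc', Real.cos_zero, Real.sin_zero]
    ring
  have hd2 : HasDerivAt
      (fun t => ∑ i, gr u (γ t) i * (S * (-Real.sin t * e i + Real.cos t * f i)))
      (∑ i, ((∑ j, hs u c' j i * (S * f j)) * (S * f i) + gr u c' i * (S * (- e i)))) 0 := by
    apply HasDerivAt.fun_sum
    intro i _
    have h3 := hasDerivAt_eval (MvPolynomial.pderiv i u) γ _ 0 (hγd 0)
    have h4 : HasDerivAt (fun t => S * (-Real.sin t * e i + Real.cos t * f i))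
        (S * (-Real.cos 0 * e i + -Real.sin 0 * f i)) 0 :=
      (((Real.hasDerivAt_sin 0).neg.mul_const _).add
        ((Real.hasDerivAt_cos 0).mul_const _)).const_mul S
    refine (h3.mul h4).congr_deriv ?_
    rw [hγ0]
    simp only [Real.cos_zero, Real.sin_zero, one_mul, zero_mul, add_zero, neg_zero,
      zero_add, neg_mul, mul_neg]
    rfl
  have hd0 : HasDerivAt
      (fun t => ∑ i, gr u (γ t) i * (S * (-Real.sin t * e i + Real.cos t * f i))) 0 0 := by
    have : (fun t => ∑ i, gr u (γ t) i * (S * (-Real.sin t * e i + Real.cos t * f i))) =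
        fun _ => (0 : ℝ) := funext hd1
    rw [this]
    exact hasDerivAt_const 0 (0 : ℝ)
  have hz := hd2.unique hd0
  have hexp : ∑ i, ((∑ j, hs u c' j i * (S * f j)) * (S * f i) + gr u c' i * (S * (- e i))) =
      S ^ 2 * Q u c' f - S * ∑ i, gr u c' i * e i := by
    rw [Finset.sum_add_distrib, sub_eq_add_neg, Finset.mul_sum, ← Finset.sum_neg_distrib]
    congr 1
    · unfold Q
      rw [Finset.sum_comm, Finset.mul_sum]
      apply Finset.sum_congr rfl
      intro i _
      rw [Finset.sum_mul, Finset.mul_sum]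
      apply Finset.sum_congr rfl
      intro j _
      ring
    · apply Finset.sum_congr rfl
      intro i _
      ring
  rw [hexp] at hz
  have hq : Q u c' f = m * (m - 1) * M := by linarith
  have hg : ∑ i, gr u c' i * e i = -(m * M * S) := by linarith
  rw [hq, hg] at hz
  have hz2 : S ^ 2 * ((m : ℝ) ^ 2 * M) = 0 := by linarith
  have hm0 : (0 : ℝ) < m := by
    have : 0 < m := by omega
    exact_mod_cast this
  have := h.pos
  have : 0 < S ^ 2 * ((m : ℝ) ^ 2 * M) := by positivity
  linarith

lemma eval_scale {m : ℕ} {u : MvPolynomial (Fin n) ℝ} (hu : u.IsHomogeneous m) (r : ℝ)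
    (x : Fin n → ℝ) :
    MvPolynomial.eval (fun i => r * x i) u = r ^ m * MvPolynomial.eval x u := by
  rw [MvPolynomial.eval_eq, MvPolynomial.eval_eq, Finset.mul_sum]
  apply Finset.sum_congr rfl
  intro d hd
  have hdeg : ∑ i ∈ d.support, d i = m := by
    have := hu (MvPolynomial.mem_support_iff.mp hd)
    rw [← this, Finsupp.weight_apply, Finsupp.sum]
    simp
  have : ∏ i ∈ d.support, (r * x i) ^ d i = r ^ m * ∏ i ∈ d.support, x i ^ d i := by
    rw [← hdeg, ← Finset.prod_pow_eq_pow_sum, ← Finset.prod_mul_distrib]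
    apply Finset.prod_congr rfl
    intro i _
    rw [mul_pow]
  rw [this]
  ring

/-- existence of the maximum -/
lemma exists_isMax {u : MvPolynomial (Fin n) ℝ} {m : ℕ} (hm : 2 ≤ m) (hu : u.IsHomogeneous m)
    (hu0 : u ≠ 0) (hn : 3 ≤ n) :
    ∃ M c, IsMax u m M c ∨ IsMax (-u) m M c := by
  have hcl : IsClosed {x : Fin n → ℝ | dp x x = 1} := by
    have : Continuous (fun x : Fin n → ℝ => dp x x) := by
      unfold dp
      fun_prop
    exact isClosed_eq this continuous_const
  have hbd : Bornology.IsBounded {x : Fin n → ℝ | dp x x = 1} := by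
    rw [isBounded_iff_forall_norm_le]
    refine ⟨1, fun x hx => ?_⟩
    rw [pi_norm_le_iff_of_nonneg zero_le_one]
    intro i
    rw [Real.norm_eq_abs, abs_le_one_iff_mul_self_le_one]
    have hx' : ∑ i, x i * x i = 1 := hx
    rw [← hx']
    exact Finset.single_le_sum (f := fun i => x i * x i)
      (fun i _ => mul_self_nonneg (x i)) (Finset.mem_univ i)
  have hcomp : IsCompact {x : Fin n → ℝ | dp x x = 1} :=
    Metric.isCompact_of_isClosed_isBounded hcl hbd
  have hne : {x : Fin n → ℝ | dp x x = 1}.Nonempty := by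
    obtain ⟨v, hv, -⟩ := exists_unit_orth hn (0 : Fin n → ℝ) 0
    exact ⟨v, hv⟩
  have hcont : ContinuousOn (fun x : Fin n → ℝ => |MvPolynomial.eval x u|)
      {x : Fin n → ℝ | dp x x = 1} := by
    apply Continuous.continuousOn
    exact (MvPolynomial.continuous_eval u).abs
  obtain ⟨c, hc, hmax⟩ := hcomp.exists_isMaxOn hne hcont
  set M := |MvPolynomial.eval c u| with hM
  have hbdM : ∀ x, dp x x = 1 → |MvPolynomial.eval x u| ≤ M := fun x hx => hmax hx
  have hMpos : 0 < M := by
    rcases (abs_nonneg (MvPolynomial.eval c u)).eq_or_lt with h0 | h0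
    · exfalso
      apply hu0
      apply MvPolynomial.funext
      intro x
      rw [map_zero]
      rcases (dp_self_nonneg x).eq_or_lt with hx0 | hx0
      · have h1 := (Finset.sum_eq_zero_iff_of_nonneg
          (fun i _ => mul_self_nonneg (x i))).mp hx0.symm
        have hx : x = fun i => 0 * x i := by
          funext i
          rw [zero_mul]
          exact mul_self_eq_zero.mp (h1 i (Finset.mem_univ i))
        rw [hx, eval_scale hu, zero_pow (by omega), zero_mul]
      · set r := Real.sqrt (dp x x) with hr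
        have hr0 : 0 < r := Real.sqrt_pos.mpr hx0
        have hr2 : r ^ 2 = dp x x := Real.sq_sqrt hx0.le
        have hx1 : dp (fun i => r⁻¹ * x i) (fun i => r⁻¹ * x i) = 1 := by
          have : dp (fun i => r⁻¹ * x i) (fun i => r⁻¹ * x i) = r⁻¹ ^ 2 * dp x x := by
            unfold dp
            rw [Finset.mul_sum]
            apply Finset.sum_congr rfl
            intro i _
            ring
          rw [this, ← hr2]
          field_simp
        have h2 := hbdM _ hx1
        rw [hM, ← h0, eval_scale hu, abs_nonpos_iff] at h2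
        rcases mul_eq_zero.mp h2 with h3 | h3
        · exact absurd h3 (pow_ne_zero _ (inv_ne_zero hr0.ne'))
        · exact h3
    · exact h0
  rcases le_total 0 (MvPolynomial.eval c u) with hs | hs
  · refine ⟨M, c, Or.inl ⟨hu, hMpos, hc, ?_, hbdM⟩⟩
    rw [hM, abs_of_nonneg hs]
  · refine ⟨M, c, Or.inr ⟨hu.neg, hMpos, hc, ?_, ?_⟩⟩
    · rw [map_neg, hM, abs_of_nonpos hs]
    · intro x hx
      rw [map_neg, abs_neg]
      exact hbdM x hx

theorem large_exponent (hn : 3 ≤ n) (p : ℝ) (hp : (n : ℝ) ≤ p) (m : ℕ) (hm : 2 ≤ m)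
    (u : MvPolynomial (Fin n) ℝ) (hu0 : u ≠ 0) (hu : u.IsHomogeneous m) :
    ¬ ∀ x, Eqn u p x := by
  intro he
  obtain ⟨M, c, h | h⟩ := exists_isMax hm hu hu0 hn
  · exact no_max hn hm h he hp
  · exact no_max hn hm h (fun x => Eqn_neg u p x (he x)) hp

end Pool.Agent.Helper46.PLapMax
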